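import Pool.Agent.helper45.BR.Spec

set_option autoImplicit false

open Complex Metric Set Filter Topology MeasureTheory MPS Pool.Agent.helper98.ILF
  Pool.Agent.helper16.Multibrot

noncomputable section

namespace BR

/-- **RDF**: recurrent domains without periodic points do not exist. -/
theorem RDF (hS : SEQ_stmt) (hV : VFX_stmt) (hP : PRM_stmt) : RDF_stmt := by
  intro g U h
  obtain ⟨X, hXd, hX0, hXg⟩ := hV g U h
  obtain ⟨m, hm, hmc⟩ := hS g U h
  obtain ⟨H, hH⟩ := hP U (fun z => (X z)⁻¹) h.op h.co h.nh (hXd.inv hX0)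
  obtain ⟨z₀, hz₀⟩ := h.co.nonempty
  have hd : ∀ z ∈ U, HasDerivAt (fun z => H (g z) - H z) 0 z := by
    intro z hz
    have hgz : g z ∈ U := h.mt hz
    have hg : HasDerivAt g (deriv g z) z :=
      ((h.di z hz).differentiableAt (h.op.mem_nhds hz)).hasDerivAt
    have h1 : HasDerivAt (fun z => H (g z)) ((X (g z))⁻¹ * deriv g z) z :=
      (hH (g z) hgz).comp z hg
    have h2 := h1.sub (hH z hz)
    have hne : deriv g z ≠ 0 := by
      intro h0
      apply hX0 (g z) hgz
      rw [hXg z hz, h0, zero_mul]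
    have h3 : (X (g z))⁻¹ * deriv g z - (X z)⁻¹ = 0 := by
      rw [hXg z hz]
      have := hX0 z hz
      field_simp
      ring
    rw [h3] at h2
    exact h2
  have hconst : ∀ z ∈ U, H (g z) - H z = H (g z₀) - H z₀ := by
    intro z hz
    have hD : DifferentiableOn ℂ (fun z => H (g z) - H z) U :=
      fun z hz => (hd z hz).differentiableAt.differentiableWithinAt
    exact h.op.is_const_of_deriv_eq_zero h.co.isPreconnected hD
      (fun z hz => (hd z hz).deriv) hz hz₀
  set b : ℂ := H (g z₀) - H z₀ with hb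
  have hit : ∀ k : ℕ, g^[k] z₀ ∈ U ∧ H (g^[k] z₀) = H z₀ + k * b := by
    intro k
    induction k with
    | zero => simp [hz₀]
    | succ k ih =>
      rw [Function.iterate_succ_apply']
      refine ⟨h.mt ih.1, ?_⟩
      have := hconst _ ih.1
      push_cast
      linear_combination this + ih.2
  have hlim : Tendsto (fun j => g^[m j] z₀) atTop (𝓝 z₀) := by
    rw [Metric.tendsto_nhds]
    intro ε hε
    have h1 := hmc {z₀} (by simpa using hz₀) isCompact_singleton (ε / 2) (by linarith)
    filter_upwards [h1] with j hj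
    have := hj z₀ rfl
    rw [dist_eq_norm]
    linarith
  have hHc : ContinuousAt H z₀ := (hH z₀ hz₀).continuousAt
  have hl2 : Tendsto (fun j => H (g^[m j] z₀)) atTop (𝓝 (H z₀)) := hHc.tendsto.comp hlim
  have hl3 : Tendsto (fun j => ((m j : ℕ) : ℂ) * b) atTop (𝓝 0) := by
    have h1 : Tendsto (fun j => H (g^[m j] z₀) - H z₀) atTop (𝓝 (H z₀ - H z₀)) :=
      hl2.sub_const _
    rw [sub_self] at h1
    refine h1.congr fun j => ?_
    rw [(hit (m j)).2]
    ring
  have hb0 : b = 0 := by
    have h1 : Tendsto (fun j => ‖((m j : ℕ) : ℂ) * b‖) atTop (𝓝 0) := by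
      simpa using hl3.norm
    have h2 : ‖b‖ ≤ 0 := by
      refine ge_of_tendsto h1 ?_
      filter_upwards [hm.eventually_ge_atTop 1] with j hj
      rw [norm_mul, Complex.norm_natCast]
      have : (1 : ℝ) ≤ (m j : ℝ) := by exact_mod_cast hj
      nlinarith [norm_nonneg b]
    exact norm_le_zero_iff.mp h2
  have hne : ∀ᶠ z in 𝓝[≠] z₀, H z ≠ H z₀ :=
    (hH z₀ hz₀).eventually_ne (inv_ne_zero (hX0 z₀ hz₀))
  rw [eventually_nhdsWithin_iff] at hne
  have h4 := hlim.eventually hne
  obtain ⟨j, hj1, hj2⟩ := (h4.and (hm.eventually_ge_atTop 1)).exists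
  have h5 : g^[m j] z₀ ≠ z₀ := h.np (m j) (by omega) z₀ hz₀
  apply hj1 h5
  rw [(hit (m j)).2, hb0, mul_zero, add_zero]

end BR
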